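import Pool.Agent.K1H14.SD.Stm2

/-! # Project SD (helper14), piece INV: involutions of matrix algebras over `ℂ` -/

set_option autoImplicit false

namespace Pool.Agent.K1H13.SD

open Matrix

theorem inner (N : ℕ) (g : Matrix (Fin N) (Fin N) ℂ ≃ₐ[ℂ] Matrix (Fin N) (Fin N) ℂ) :
    ∃ C C' : Matrix (Fin N) (Fin N) ℂ, C * C' = 1 ∧ C' * C = 1 ∧ ∀ x, g x = C * x * C' := by
  obtain ⟨T, hT⟩ := AlgEquiv.eq_linearEquivConjAlgEquiv
    ((Matrix.toLinAlgEquiv' (R := ℂ) (n := Fin N)).symm.trans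
      (g.trans (Matrix.toLinAlgEquiv' (R := ℂ) (n := Fin N))))
  refine ⟨LinearMap.toMatrix' T.toLinearMap, LinearMap.toMatrix' T.symm.toLinearMap, ?_, ?_, ?_⟩
  · rw [← LinearMap.toMatrix'_comp]
    simp
  · rw [← LinearMap.toMatrix'_comp]
    simp
  · intro x
    have h := congrArg (fun F => F (Matrix.toLinAlgEquiv' x)) hT
    simp only [AlgEquiv.trans_apply, AlgEquiv.symm_apply_apply] at h
    have h2 : Matrix.toLinAlgEquiv' (g x) =
        T.toLinearMap ∘ₗ (Matrix.toLinAlgEquiv' x) ∘ₗ T.symm.toLinearMap := h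
    have h3 := congrArg LinearMap.toMatrix' h2
    rw [LinearMap.toMatrix'_comp, LinearMap.toMatrix'_comp] at h3
    have h4 : ∀ y : Matrix (Fin N) (Fin N) ℂ,
        LinearMap.toMatrix' (Matrix.toLinAlgEquiv' y) = y := fun y => by
      exact LinearMap.toMatrix'_toLin' y
    rw [h4, h4] at h3
    rw [h3, Matrix.mul_assoc]

theorem t_INV : Pool.Agent.K1H14.SD.S_INV := by
  intro N τ hmul hinv hone
  let g : Matrix (Fin N) (Fin N) ℂ ≃ₐ[ℂ] Matrix (Fin N) (Fin N) ℂ :=
    AlgEquiv.ofBijective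
      (AlgHom.ofLinearMap ((Matrix.transposeLinearEquiv (Fin N) (Fin N) ℂ ℂ).toLinearMap ∘ₗ τ)
        (by simp [hone]) (by
          intro x y
          simp [hmul, Matrix.transpose_mul])) (by
      constructor
      · intro x y hxy
        have h : (τ x)ᵀ = (τ y)ᵀ := hxy
        have h2 : τ x = τ y := Matrix.transpose_injective h
        rw [← hinv x, ← hinv y, h2]
      · intro y
        refine ⟨τ yᵀ, ?_⟩
        show (τ (τ yᵀ))ᵀ = y
        rw [hinv, Matrix.transpose_transpose])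
  have hg : ∀ x, g x = (τ x)ᵀ := fun x => rfl
  obtain ⟨C, C', h1, h2, h3⟩ := inner N g
  have hτ : ∀ x, τ x = C'ᵀ * xᵀ * Cᵀ := by
    intro x
    have h := h3 x
    rw [hg] at h
    have h4 := congrArg Matrix.transpose h
    rw [Matrix.transpose_transpose, Matrix.transpose_mul, Matrix.transpose_mul] at h4
    rw [h4, Matrix.mul_assoc]
  have hB1 : C'ᵀ * Cᵀ = 1 := by
    rw [← Matrix.transpose_mul, h1, Matrix.transpose_one]
  have hB2 : Cᵀ * C'ᵀ = 1 := by
    rw [← Matrix.transpose_mul, h2, Matrix.transpose_one]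
  have hBinv : (Cᵀ)⁻¹ = C'ᵀ := Matrix.inv_eq_left_inv hB1
  have hdet : IsUnit (Cᵀ).det := by
    rw [← Matrix.isUnit_iff_isUnit_det]
    exact ⟨⟨Cᵀ, C'ᵀ, hB2, hB1⟩, rfl⟩
  -- the element `u = B⁻¹ Bᵀ` is central
  have hu : ∀ x, (C'ᵀ * C) * x = x * (C'ᵀ * C) := by
    intro x
    have h := hinv x
    rw [hτ (τ x), hτ x] at h
    simp only [Matrix.transpose_mul, Matrix.transpose_transpose] at h
    have h4 : C'ᵀ * (C * (x * C')) * Cᵀ = x := by simpa only [Matrix.mul_assoc] using h
    calc C'ᵀ * C * x = (C'ᵀ * (C * (x * C')) * Cᵀ) * (C'ᵀ * C) := by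
          simp only [Matrix.mul_assoc]
          rw [← Matrix.mul_assoc Cᵀ C'ᵀ C, hB2, Matrix.one_mul, h2, Matrix.mul_one]
      _ = x * (C'ᵀ * C) := by rw [h4]
  have hsc : C'ᵀ * C ∈ Set.range (Matrix.scalar (Fin N)) := by
    rw [Matrix.mem_range_scalar_iff_commute_single']
    intro i j
    exact (hu _).symm
  obtain ⟨ε, hε⟩ := hsc
  have hC : C = ε • Cᵀ := by
    have h : Cᵀ * (C'ᵀ * C) = Cᵀ * Matrix.scalar (Fin N) ε := by rw [hε]
    rw [← Matrix.mul_assoc, hB2, Matrix.one_mul] at h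
    refine h.trans ?_
    ext i j
    simp [Matrix.scalar_apply, mul_comm]
  refine ⟨Cᵀ, hdet, ?_, ?_⟩
  · rw [Matrix.transpose_transpose]
    rcases Nat.eq_zero_or_pos N with hN | hN
    · subst hN
      left
      exact Subsingleton.elim _ _
    · have h4 : Cᵀ = ε • C := by
        conv_lhs => rw [hC]
        rw [Matrix.transpose_smul, Matrix.transpose_transpose]
      have h5 : C = (ε * ε) • C := by
        conv_lhs => rw [hC, h4]
        rw [smul_smul]
      have hC0 : C ≠ 0 := by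
        rintro rfl
        rw [Matrix.zero_mul] at h1
        have : Nonempty (Fin N) := ⟨⟨0, hN⟩⟩
        exact zero_ne_one h1
      have h6 : (1 - ε * ε) • C = 0 := by
        rw [sub_smul, one_smul, ← h5, sub_self]
      have h7 : 1 - ε * ε = 0 := (smul_eq_zero.1 h6).resolve_right hC0
      have h8 : (ε - 1) * (ε + 1) = 0 := by linear_combination -h7
      rcases mul_eq_zero.1 h8 with h9 | h9
      · left
        have : ε = 1 := by linear_combination h9
        rw [this, one_smul] at hC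
        exact hC
      · right
        have : ε = -1 := by linear_combination h9
        rw [this, neg_one_smul] at hC
        exact hC
  · intro x
    rw [hBinv]
    exact hτ x

end Pool.Agent.K1H13.SD
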